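import Pool.Agent.Helper93.TS.Stmts

/-! Two-scale sums-differences: modules cR, cS. -/

set_option autoImplicit false

namespace Pool.Agent.Helper93.TS

open Pool.Agent.Helper8.Kak

theorem st_cR (h1 : ST_PRE) : ST_cR := by
  intro m N D
  have hD := h1 m N D
  have hκ := hD.κ0
  refine cost_le D.V _ _ VV.R (by decide +kernel) _ fun r hr => ?_
  simp only [Finset.mem_insert, Finset.mem_singleton, forall_eq_or_imp, forall_eq, Dat.V_b,
    Dat.V_S, Dat.V_T0, Dat.V_T1] at hr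
  have h0 : CE D.pz (D.V VV.R) r ≤ CE D.pz
      (Setoid.ker (fun y => ((D.T (zR y) : ℕ) : ℤ) - ((D.T (z0 y) : ℕ) : ℤ))) r := by
    refine CE_mono hD.hp fun y y' _ _ g1 g2 => ?_
    rw [Setoid.ker_def] at g1
    rw [Dat.V_R]
    have g3 : ((D.T (zR y) : ℕ) : ℤ) = ((D.T (zR y') : ℕ) : ℤ) := by
      rw [(hr y y' g2).2.2.1] at g1
      linarith
    exact Fin.ext (by exact_mod_cast g3)
  have h1 := Pool.Agent.Helper89.KakGeo.CE_unmv hD.hp r
    (fun y => ((D.T (zR y) : ℕ) : ℤ) - ((D.T (z0 y) : ℕ) : ℤ)) (fun y => D.T (zS y))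
    (fun y => D.T (z0 y)) (fun y => D.T (zT y))
    (fun y y' _ _ g => ⟨(hr y y' g).2.1, (hr y y' g).2.2.1, (hr y y' g).2.2.2, (hr y y' g).1⟩)
  have e : Ex D.pz (fun y => 2 * up (N * N) (((D.T (zR y) : ℕ) : ℤ) - ((D.T (z0 y) : ℕ) : ℤ)) +
      ld (D.T (zS y)) (D.T (z0 y)) + ld (D.T (zS y)) (D.T (zT y))) ≤
      Ex D.pz (fun y => ld (D.T (zS y)) (D.T (z0 y)) + (ld (D.T (zS y)) (D.T (zT y))
        + 2 * Real.log 2)) := by
    refine Ex_mono hD.hp fun y => ?_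
    have h6 := Pool.Agent.Helper89.KakGeo.up_sub (D.T (zR y)) (D.T (z0 y))
    linarith
  have e2 : Ex D.pz (fun y => ld (D.T (zS y)) (D.T (z0 y)) + (ld (D.T (zS y)) (D.T (zT y))
        + 2 * Real.log 2)) = Ex D.pz (fun y => ld (D.T (zS y)) (D.T (z0 y)))
        + (Ex D.pz (fun y => ld (D.T (zS y)) (D.T (zT y))) + 2 * Real.log 2) := by
    rw [Ex_add, Ex_add, Ex_const hD.hp]
  have h2 : CE D.pz (D.V VV.R) r ≤ 34 * (D.κ + 1) := by
    linarith [hD.ldS0, hD.ldS1, log2_le, log5_le]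
  exact le_kk hκ h2

theorem st_cS (h1 : ST_PRE) (h2 : ST_CES) : ST_cS := by
  intro m N D
  have hD := h1 m N D
  have hκ := hD.κ0
  refine cost_le D.V _ _ VV.S (by decide +kernel) _ fun r hr => ?_
  simp only [Finset.mem_insert, Finset.mem_singleton, forall_eq_or_imp, forall_eq, Dat.V_b,
    Dat.V_R, Dat.V_T0, Dat.V_T1] at hr
  have h3 := h2 (Z D.Ω) D.pz hD.hp (N * N) r (fun y => D.T (zS y)) (fun y => D.T (z0 y))
    (fun y => D.T (zT y)) (fun y => D.T (zR y))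
    (fun y y' _ _ g => ⟨(hr y y' g).2.2.1, (hr y y' g).2.2.2, (hr y y' g).2.1, (hr y y' g).1⟩)
  have h4 : Real.log 10 ≤ 3 :=
    (Real.log_le_log (by norm_num) (by norm_num)).trans log11_le
  have h5 : CE D.pz (D.V VV.S) r ≤ 34 * (D.κ + 1) := by
    have h6 : CE D.pz (D.V VV.S) r = CE D.pz (Setoid.ker (fun y => D.T (zS y))) r := rfl
    rw [h6]
    linarith [hD.ldR0, hD.ld10]
  exact le_kk hκ h5

end Pool.Agent.Helper93.TS
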